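import Pool.Agent.P8H73.SF.Main

/-!
# Schiffer's conjecture for domains bounded by algebraic curves

Let `Ω = φ(D)`, where `φ` is holomorphic and injective in a disc `|w| < r`, `r > 1`, and `D` is the
open unit disc: `Ω` is bounded by an analytic Jordan curve. Suppose that (S) has a nontrivial
solution on `Ω` for some `lam > 0`. Then `Ω` is a disc in each of the following cases.

* The boundary satisfies an equation `∑_{k ≤ N} a_k(z) conj(z)^k = 0` with coefficients `a_k`
  holomorphic in a neighbourhood of the closure of `Ω` and `a_N` not identically zero, and `Ω`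
  contains at most one bad point. Here `ζ` is bad if, at the point `(ζ, ∞)`, the curve
  `∑ a_k(z) w^k = 0` has a multiple tangent line other than the line `z = ζ`; in particular
  `a_N(ζ) = a_N'(ζ) = a_{N-1}(ζ) = 0` at a bad point. In other words, the Schwarz function of the
  boundary is algebroid in `Ω`.
* The boundary lies on an algebraic curve whose leading form is not divisible by `(x ^ 2 + y ^ 2) ^ 4`,
  for example on any algebraic curve of degree at most seven. Ellipses, Cassini ovals, Booth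
  lemniscates and their images under rotations and translations are special cases.

The proof: let the centre `φ(0)` be the only bad point. Where the leading coefficient vanishes at a
point which is not bad, a branch of the Schwarz function either grows less than `1 / dist`, and
continues analytically by `BranchSingularities`, or it is meromorphic, and again continues. Hence `φ`
continues across every point of its circle of convergence; so it is entire, and `Ω` is a disc.
-/

set_option autoImplicit false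

open MeasureTheory Metric Set Filter Topology ComplexConjugate

namespace Pool.Agent.Results.MP_83fd13_an.AlgebraicBoundary

/-- The overdetermined problem (S) in the plane `ℂ`: `-Δu = lam u` in `Ω`, `∂u/∂n = 0` on `∂Ω`,
`u = c` on `∂Ω` has a nontrivial weak solution `u` for some real constant `c`; `G` is the weak
gradient of `u`, and both boundary conditions are expressed by testing with functions that need not
vanish on `∂Ω`. -/
def Solvable (Ω : Set ℂ) (lam : ℝ) : Prop :=
  ∃ (c : ℝ) (u : ℂ → ℝ) (G : ℂ → ℂ),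
    MemLp u 2 (volume.restrict Ω) ∧ MemLp G 2 (volume.restrict Ω) ∧
    (∀ φ : ℂ → ℝ, ContDiff ℝ 1 φ → HasCompactSupport φ → ∀ v : ℂ,
      ∫ x in Ω, (u x - c) * (fderiv ℝ φ x v) = - ∫ x in Ω, @inner ℝ ℂ _ (G x) v * φ x) ∧
    (∀ φ : ℂ → ℝ, ContDiff ℝ 1 φ → HasCompactSupport φ →
      ∫ x in Ω, fderiv ℝ φ x (G x) = lam * ∫ x in Ω, u x * φ x) ∧
    ¬ (u =ᵐ[volume.restrict Ω] 0)

/-- Bad points of the equation `∑_{k ≤ N} a_k(z) w^k = 0`. Put `w = 1 / ((z - ζ) Z)`; the equation
becomes `∑_{i ≤ N} a_{N-i}(z) (z - ζ)^i Z^i = 0`. Divide it by the power `(z - ζ)^e` for which the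
quotient `∑_{i ≤ N} g_i(z) Z^i` is not identically zero at `z = ζ`. The point `ζ` is bad if the
polynomial `∑_{i ≤ N} g_i(ζ) Z^i` has a multiple zero. -/
def BadPoint (N : ℕ) (a : ℕ → ℂ → ℂ) (ζ : ℂ) : Prop :=
  ∃ (e : ℕ) (g : ℕ → ℂ → ℂ),
    (∀ i ≤ N, AnalyticAt ℂ (g i) ζ ∧
      ∀ᶠ z in 𝓝 ζ, a (N - i) z * (z - ζ) ^ i = (z - ζ) ^ e * g i z) ∧
    (∃ Z : ℂ, ∑ i ∈ Finset.range (N + 1), g i ζ * Z ^ i ≠ 0) ∧
    ∃ Z : ℂ, ∑ i ∈ Finset.range (N + 1), g i ζ * Z ^ i = 0 ∧
      ∑ i ∈ Finset.range (N + 1), g i ζ * ((i : ℂ) * Z ^ (i - 1)) = 0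

/-- Let `φ` be holomorphic and injective in `|w| < r`, where `r > 1`, and let (S) have a nontrivial
solution on `Ω = φ(D)` for `lam > 0`.
If `∑_{k ≤ N} a_k(z) conj(z)^k = 0` on `∂Ω` with `a_k` holomorphic near the closure of `Ω`, `a_N` not
identically zero in `Ω`, and there is at most one bad point in `Ω`, then `Ω` is a disc. In
particular, `Ω` is a disc if `∂Ω` lies on an algebraic curve `∑_{j + k ≤ d} c_{jk} z^j conj(z)^k = 0`
whose leading form `∑_{j + k = d} c_{jk} z^j conj(z)^k` is not divisible by `(z conj(z))^4`, for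
example on an algebraic curve of degree `d ≤ 7`. -/
theorem result (φ : ℂ → ℂ) (r : ℝ) (hr : 1 < r) (hφ : DifferentiableOn ℂ φ (ball 0 r))
    (hinj : InjOn φ (ball 0 r)) (lam : ℝ) (hlam : 0 < lam) (hS : Solvable (φ '' ball 0 1) lam) :
    (∀ (V : Set ℂ) (N : ℕ) (a : ℕ → ℂ → ℂ), IsOpen V → φ '' closedBall 0 1 ⊆ V →
      (∀ k ≤ N, DifferentiableOn ℂ (a k) V) → (∃ z ∈ φ '' ball 0 1, a N z ≠ 0) →
      (∀ z ∈ φ '' sphere 0 1, ∑ k ∈ Finset.range (N + 1), a k z * conj z ^ k = 0) →
      (∀ P ∈ φ '' ball 0 1, ∀ P' ∈ φ '' ball 0 1, BadPoint N a P → BadPoint N a P' → P = P') →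
      ∃ (p : ℂ) (r0 : ℝ), 0 < r0 ∧ φ '' ball 0 1 = ball p r0) ∧
    (∀ (d : ℕ) (c : ℕ → ℕ → ℂ), (∀ j k, d < j + k → c j k = 0) →
      (∃ j k, j + k = d ∧ c j k ≠ 0 ∧ (j ≤ 3 ∨ k ≤ 3)) →
      (∀ z ∈ φ '' sphere 0 1, ∑ j ∈ Finset.range (d + 1), ∑ k ∈ Finset.range (d + 1),
        c j k * z ^ j * conj z ^ k = 0) →
      ∃ (p : ℂ) (r0 : ℝ), 0 < r0 ∧ φ '' ball 0 1 = ball p r0) := by
  refine ⟨fun V N a hV hcl ha hne hrel hbad => ?_, fun d c hc htop hvan => ?_⟩
  · exact Pool.Agent.P8H73.SF.main_alg φ r lam hr hφ hinj hlam hS V hV hcl N a ha hne hrel hbad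
  · exact Pool.Agent.P8H73.SF.main_curve φ r lam hr hφ hinj hlam hS d c hc htop hvan

end Pool.Agent.Results.MP_83fd13_an.AlgebraicBoundary
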