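import Pool.Agent.P8H8.EV.Fin

/-!
# Schiffer's conjecture at several frequencies

Let `Ω = φ(D)`, where `φ` is holomorphic and injective in a disc `|w| < r`, `r > 1`, and `D` is the
open unit disc: `Ω` is bounded by an analytic Jordan curve. Let (S) have nontrivial solutions on `Ω`
for the `m` frequencies of the finite set `Λ`.

1. For every single frequency there is an explicit infinite hierarchy of identities
   `∫_{∂Ω} U_n (K·ν) |dw| = 0` (`K` any infinitesimal rigid motion, `n = 0, 1, 2, ...`), where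
   `c U_n` is the boundary value of the `n`-th complex derivative of the solution:
   `U_0 = 1`, `U_1 = 0`, `U_{n+2} = U_{n+1}' / (i N) - (lam/4) (N̄/N) U_n`, `N = w φ'(w)`.
   `U_n` is a polynomial in `lam` whose coefficients depend only on the boundary curve.
2. If there are `m` frequencies, all these coefficients satisfy the identity up to `n = 2m + 1`; the
   top coefficients give `∫_{∂Ω} ν^{2j} (K·ν) ds = 0` for `j ≤ m`.
3. Let `Ω` be convex and not a disc. If `Ω` is centrally symmetric, then the derivative of the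
   curvature changes sign at least `4m + 4` times: the number of Schiffer frequencies is at most
   `V/4 - 1`, where `V` is the number of vertices (Berenstein: finite if `Ω` is not a disc). If `Ω`
   is not centrally symmetric, the curvatures at opposite boundary points (points with parallel
   tangents) are equal at least `4m + 6` times (with sign changes of the difference). If `Ω` has
   constant width there are at least `4m + 6` vertices; if `Ω` has an `n`-fold symmetry, `n` odd,
   `3 ≤ n ≤ 2m + 1`, at least `4n`.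
-/

set_option autoImplicit false

open MeasureTheory Metric Set

namespace Pool.Agent.Results.MP_83fd13_an.ManyFrequencies

/-- The overdetermined problem (S) in the plane `ℂ`: `-Δu = lam u` in `Ω`, `∂u/∂n = 0` on `∂Ω`,
`u = c` on `∂Ω` has a nontrivial weak solution `u` for some real constant `c`; `G` is the weak
gradient of `u`, and both boundary conditions are expressed by testing with functions that need not
vanish on `∂Ω`. -/
def Solvable (Ω : Set ℂ) (lam : ℝ) : Prop :=
  ∃ (c : ℝ) (u : ℂ → ℝ) (G : ℂ → ℂ),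
    MemLp u 2 (volume.restrict Ω) ∧ MemLp G 2 (volume.restrict Ω) ∧
    (∀ φ : ℂ → ℝ, ContDiff ℝ 1 φ → HasCompactSupport φ → ∀ v : ℂ,
      ∫ x in Ω, (u x - c) * (fderiv ℝ φ x v) = - ∫ x in Ω, @inner ℝ ℂ _ (G x) v * φ x) ∧
    (∀ φ : ℂ → ℝ, ContDiff ℝ 1 φ → HasCompactSupport φ →
      ∫ x in Ω, fderiv ℝ φ x (G x) = lam * ∫ x in Ω, u x * φ x) ∧
    ¬ (u =ᵐ[volume.restrict Ω] 0)

/-- The boundary curve `t ↦ φ(e^{it})` of `Ω = φ(D)`. -/
noncomputable def curve (φ : ℂ → ℂ) (t : ℝ) : ℂ := φ (Complex.exp (t * Complex.I))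

/-- The speed `|φ'(e^{it})|` of the boundary curve; `speed φ t dt` is the length element. -/
noncomputable def speed (φ : ℂ → ℂ) (t : ℝ) : ℝ := ‖deriv φ (Complex.exp (t * Complex.I))‖

/-- The outer normal `N = w φ'(w)`, `w = e^{it}`, of length `speed φ t`. -/
noncomputable def outer (φ : ℂ → ℂ) (t : ℝ) : ℂ :=
  Complex.exp (t * Complex.I) * deriv φ (Complex.exp (t * Complex.I))

/-- The outer unit normal. -/
noncomputable def normal (φ : ℂ → ℂ) (t : ℝ) : ℂ := outer φ t / speed φ t

/-- The curvature `Re (1 + w φ''(w) / φ'(w)) / |φ'(w)|`, `w = e^{it}`, at the point `curve φ t`. -/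
noncomputable def curvature (φ : ℂ → ℂ) (t : ℝ) : ℝ :=
  (1 + Complex.exp (t * Complex.I) * deriv (deriv φ) (Complex.exp (t * Complex.I)) /
    deriv φ (Complex.exp (t * Complex.I))).re / speed φ t

/-- The value at `z` of the infinitesimal rigid motion `z ↦ a + i b z`, `a` complex, `b` real: a
translation if `b = 0`, a rotation about `i a / b` otherwise. -/
noncomputable def motion (a : ℂ) (b : ℝ) (z : ℂ) : ℂ := a + b * Complex.I * z

/-- The scalar product of the plane. -/
noncomputable def dot (z w : ℂ) : ℝ := (z * (starRingEnd ℂ) w).re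

/-- The coefficient of `lam ^ k` in the function `U_n`, where `U_0 = 1`, `U_1 = 0`,
`U_{n+2} = U_{n+1}' / (i N) - (lam / 4) (N̄ / N) U_n` and `N = outer φ t`. -/
noncomputable def coeff (φ : ℂ → ℂ) : ℕ → ℕ → ℝ → ℂ
  | 0, 0 => fun _ => 1
  | 0, _ + 1 => fun _ => 0
  | 1, _ => fun _ => 0
  | n + 2, 0 => fun t => deriv (coeff φ (n + 1) 0) t / (Complex.I * outer φ t)
  | n + 2, k + 1 => fun t => deriv (coeff φ (n + 1) (k + 1)) t / (Complex.I * outer φ t) -
      1 / 4 * ((starRingEnd ℂ) (outer φ t) / outer φ t) * coeff φ n k t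

/-- `f` changes sign at least `2 n` times on the circle: there are points
`p 0 < p 1 < ... < p (2 n) = p 0 + 2 π` at which `f` is alternately positive and negative. -/
def SignChanges (n : ℕ) (f : ℝ → ℝ) : Prop :=
  ∃ p : ℕ → ℝ, (∀ i < 2 * n, p i < p (i + 1)) ∧ p (2 * n) = p 0 + 2 * Real.pi ∧
    ∀ i < 2 * n, 0 < (-1) ^ i * f (p i)

lemma coeff_eq (φ : ℂ → ℂ) : ∀ n k, coeff φ n k = Pool.Agent.P8H8.EV.C φ n k := by
  have key : ∀ n, (∀ k, coeff φ n k = Pool.Agent.P8H8.EV.C φ n k) ∧
      ∀ k, coeff φ (n + 1) k = Pool.Agent.P8H8.EV.C φ (n + 1) k := by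
    intro n
    induction n with
    | zero =>
      refine ⟨fun k => ?_, fun k => ?_⟩
      · cases k with
        | zero => rw [coeff, Pool.Agent.P8H8.EV.C]
        | succ k => rw [coeff, Pool.Agent.P8H8.EV.C]
      · rw [coeff, Pool.Agent.P8H8.EV.C]
    | succ n ih =>
      refine ⟨ih.2, fun k => ?_⟩
      cases k with
      | zero =>
        rw [coeff, Pool.Agent.P8H8.EV.C, ih.2]
        rfl
      | succ k =>
        rw [coeff, Pool.Agent.P8H8.EV.C, ih.2, ih.1]
        rfl
  exact fun n => (key n).1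

/-- Let `φ` be holomorphic and injective in `|w| < r`, `r > 1`, `Ω = φ(D)`, and let (S) have a
nontrivial solution on `Ω` for every `lam` of the finite set `Λ` of positive numbers; let `m` be the
number of elements of `Λ`.
(1) For `lam ∈ Λ`, all `n` and all infinitesimal rigid motions `K`, `∫ U_n (K·N) dt = 0`.
(2) For `n ≤ 2 m + 1` every coefficient of `U_n` satisfies the same identity.
(3) `∫ ν^{2j} (K·ν) ds = 0` for `j ≤ m`.
(4) Let `Ω` be convex and not a disc; `τ` maps each boundary point to the opposite one (opposite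
normals). Either `Ω` is symmetric about a point `a`, a circle about `a` crosses `∂Ω` at least
`4 m + 4` times and the derivative of the curvature changes sign at least `4 m + 4` times; or
the difference of the curvatures at opposite points changes sign at least `4 m + 6` times.
(5) If moreover `Ω` has constant width, the derivative of the curvature changes sign at least
`4 m + 6` times; and if `φ` commutes with the rotation by `2 π / n`, `n` odd, `3 ≤ n ≤ 2 m + 1`, it
changes sign at least `4 n` times. -/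
theorem result (φ : ℂ → ℂ) (r : ℝ) (hr : 1 < r) (hφ : DifferentiableOn ℂ φ (ball 0 r))
    (hinj : InjOn φ (ball 0 r)) (Λ : Finset ℝ)
    (hΛ : ∀ lam ∈ Λ, 0 < lam ∧ Solvable (φ '' ball 0 1) lam) :
    (∀ lam ∈ Λ, ∀ (n : ℕ) (a : ℂ) (b : ℝ), ∫ t in (0 : ℝ)..2 * Real.pi,
      (∑ k ∈ Finset.range (n + 1), (lam : ℂ) ^ k * coeff φ n k t) *
        (dot (motion a b (curve φ t)) (outer φ t) : ℂ) = 0) ∧
    (∀ (n k : ℕ) (a : ℂ) (b : ℝ), n ≤ 2 * Λ.card + 1 → ∫ t in (0 : ℝ)..2 * Real.pi,
      coeff φ n k t * (dot (motion a b (curve φ t)) (outer φ t) : ℂ) = 0) ∧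
    (∀ (j : ℕ) (a : ℂ) (b : ℝ), j ≤ Λ.card → ∫ t in (0 : ℝ)..2 * Real.pi,
      normal φ t ^ (2 * j) * (dot (motion a b (curve φ t)) (normal φ t) : ℂ) * speed φ t = 0) ∧
    (Convex ℝ (φ '' ball 0 1) → (¬ ∃ (p : ℂ) (r0 : ℝ), 0 < r0 ∧ φ '' ball 0 1 = ball p r0) →
      (∃ τ : ℝ → ℝ, Continuous τ ∧ StrictMono τ ∧ (∀ t, τ (τ t) = t + 2 * Real.pi) ∧
        (∀ t, normal φ (τ t) = -normal φ t) ∧
        ((∃ (a : ℂ) (R : ℝ), 0 < R ∧ (∀ t, curve φ (τ t) + curve φ t = 2 * a) ∧
            SignChanges (2 * Λ.card + 2) (fun t => ‖curve φ t - a‖ - R) ∧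
            SignChanges (2 * Λ.card + 2) (deriv (curvature φ))) ∨
          SignChanges (2 * Λ.card + 3) (fun t => curvature φ (τ t) - curvature φ t))) ∧
      (∀ D : ℝ, (∀ s t, normal φ s = -normal φ t → dot (curve φ s - curve φ t) (normal φ s) = D) →
        SignChanges (2 * Λ.card + 3) (deriv (curvature φ))) ∧
      (∀ n : ℕ, 3 ≤ n → Odd n → n ≤ 2 * Λ.card + 1 →
        (∀ w ∈ ball (0 : ℂ) r, φ (Complex.exp (2 * Real.pi * Complex.I / n) * w) =
          Complex.exp (2 * Real.pi * Complex.I / n) * φ w) →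
        SignChanges (2 * n) (deriv (curvature φ)))) := by
  have hD : Pool.Agent.P8H8.SV.Dom φ r := ⟨hr, hφ, hinj⟩
  obtain ⟨g1, g2, g3, g4⟩ := Pool.Agent.P8H8.EV.fin_main φ r hD Λ (fun lam hlam => by
    obtain ⟨hpos, c, u, G, hu, hG, h1, h2, hu0⟩ := hΛ lam hlam
    exact ⟨hpos, c, u, G, ⟨hu, hG, h1, h2⟩, hu0⟩)
  have hsp : ∀ t, 0 < speed φ t := fun t => Pool.Agent.P8H8.SV.speed_pos hD t
  have hNn : ∀ t, ‖outer φ t‖ = speed φ t := fun t => Pool.Agent.P8H8.SV.norm_N t
  refine ⟨fun lam hlam n a b => ?_, fun n k a b hn => ?_, fun j a b hj => ?_,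
    fun hconv hnd => ?_⟩
  · simp_rw [coeff_eq]
    exact g1 lam hlam n a b
  · rw [coeff_eq]
    exact g2 n k a b hn
  · have h1 := g3 j a b hj
    have e : ∀ t, normal φ t ^ (2 * j) * (dot (motion a b (curve φ t)) (normal φ t) : ℂ) *
        speed φ t = (starRingEnd ℂ) (((starRingEnd ℂ) (Pool.Agent.P8H8.SV.N φ t) /
          Pool.Agent.P8H8.SV.N φ t) ^ j * (Pool.Agent.P8H8.SV.ip
          (Pool.Agent.P8H8.SV.kf a b (Pool.Agent.P8H8.SV.γ φ t))
          (Pool.Agent.P8H8.SV.N φ t) : ℂ)) := by
      intro t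
      have hs : (speed φ t : ℂ) ≠ 0 := by exact_mod_cast (hsp t).ne'
      have hN : Pool.Agent.P8H8.SV.N φ t = outer φ t := rfl
      have hNne : outer φ t ≠ 0 := by
        rw [← norm_pos_iff, hNn]
        exact hsp t
      have hcN : (starRingEnd ℂ) (outer φ t) ≠ 0 := by
        rw [Ne, map_eq_zero]
        exact hNne
      have hmul : outer φ t * (starRingEnd ℂ) (outer φ t) = (speed φ t : ℂ) ^ 2 := by
        rw [Complex.mul_conj, Complex.normSq_eq_norm_sq, hNn]
        push_cast
        rfl
      have hd : (dot (motion a b (curve φ t)) (normal φ t) : ℂ) * speed φ t =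
          (Pool.Agent.P8H8.SV.ip (Pool.Agent.P8H8.SV.kf a b (Pool.Agent.P8H8.SV.γ φ t))
            (outer φ t) : ℂ) := by
        have : dot (motion a b (curve φ t)) (normal φ t) * speed φ t =
            Pool.Agent.P8H8.SV.ip (Pool.Agent.P8H8.SV.kf a b (Pool.Agent.P8H8.SV.γ φ t))
              (outer φ t) := by
          unfold dot normal Pool.Agent.P8H8.SV.ip
          rw [map_div₀, Complex.conj_ofReal, ← mul_div_assoc, Complex.div_ofReal_re,
            div_mul_cancel₀ _ (hsp t).ne']
          rfl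
        exact_mod_cast this
      rw [mul_assoc, hd, hN, map_mul, Complex.conj_ofReal, map_pow, map_div₀, Complex.conj_conj]
      congr 1
      rw [pow_mul]
      congr 1
      unfold normal
      rw [div_pow, ← hmul]
      field_simp
    simp_rw [e]
    have h2 := congrArg (starRingEnd ℂ) h1
    rw [map_zero] at h2
    rw [← h2]
    simp only [intervalIntegral, integral_conj, map_sub]
  · obtain ⟨Θ, hA, ⟨τ, t1, t2, t3, t4, t5⟩, g5, g6⟩ := g4 hconv hnd
    have hno : ∀ t, normal φ t = Complex.exp (Θ t * Complex.I) := by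
      intro t
      have h1 : outer φ t = ‖outer φ t‖ * Complex.exp (Θ t * Complex.I) := hA.eq t
      unfold normal
      rw [h1, hNn]
      have hs : (speed φ t : ℂ) ≠ 0 := by exact_mod_cast (hsp t).ne'
      field_simp
    have hopp : ∀ s t, Θ s = Θ t + Real.pi → normal φ s = -normal φ t := by
      intro s t hst
      rw [hno, hno, hst]
      push_cast
      rw [add_mul, Complex.exp_add, Complex.exp_pi_mul_I]
      ring
    refine ⟨⟨τ, t1, t2, t3, fun t => hopp _ _ (t4 t), t5⟩, fun D hD => g5 D fun s t hst => ?_, g6⟩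
    have h1 := hD s t (hopp s t hst)
    rw [← h1]
    unfold dot
    rw [hno]
    congr 2
    rw [← Complex.exp_conj]
    simp

end Pool.Agent.Results.MP_83fd13_an.ManyFrequencies
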