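import Pool.Agent.P8H8.SV.Fin

/-!
# Schiffer's conjecture: a cubic identity, six crossings and six vertices

Let `Ω = φ(D)`, where `φ` is holomorphic and injective in a disc `|w| < r`, `r > 1`, and `D` is the
open unit disc: `Ω` is bounded by an analytic Jordan curve. Let (S) have a nontrivial solution on `Ω`
for some `lam > 0`, however large.

1. A new necessary condition: `∫_{∂Ω} (K₁·ν) (K₂·ν) (K₃·ν) ds = 0` for any three infinitesimal rigid
   motions `K₁, K₂, K₃` (translations, rotations about arbitrary points, and their combinations).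
2. If `Ω` is convex and is not a disc, then some circle crosses `∂Ω` at least six times, and the
   curvature of `∂Ω` has at least six extrema. So Schiffer's conjecture is true, at all frequencies,
   for the convex domains whose boundary has exactly four vertices, and for those whose boundary is
   crossed by every circle at most four times; ellipses are a very special case.
3. If `Ω` is moreover symmetric about a point, then some circle about this point crosses `∂Ω` at
   least eight times, and the curvature has at least eight extrema.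

The proof. On `∂Ω` the second derivatives of the solution `u` are `-lam c ν ⊗ ν`; the derivatives of
`u` along rigid motions solve the Helmholtz equation, vanish on `∂Ω` and have the normal derivatives
`-lam c (K·ν)`, and a divergence free stress field gives the cubic identity. In the convex case let
`θ` be the direction of the normal. By the identity the functions `θ ↦ |x(θ) - a|²` have no second
harmonics, for any `a`, and the first harmonics vanish for a suitable `a`; so there are at least six
sign changes by the theorem of Sturm and Hurwitz. Then the support function minus a constant has six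
sign changes, and `h''' + h'` has at least as many sign changes as `h`, a theorem of Blaschke type.
Regularity: the weak solution is `C¹` by potential theory; in the coordinate of `D` its angular
derivative solves an equation of the same type, so it is `C¹` up to the boundary as well.
-/

set_option autoImplicit false

open MeasureTheory Metric Set

namespace Pool.Agent.Results.MP_83fd13_an.SixVertices

/-- The overdetermined problem (S) in the plane `ℂ`: `-Δu = lam u` in `Ω`, `∂u/∂n = 0` on `∂Ω`,
`u = c` on `∂Ω` has a nontrivial weak solution `u` for some real constant `c`; `G` is the weak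
gradient of `u`, and both boundary conditions are expressed by testing with functions that need not
vanish on `∂Ω`. -/
def Solvable (Ω : Set ℂ) (lam : ℝ) : Prop :=
  ∃ (c : ℝ) (u : ℂ → ℝ) (G : ℂ → ℂ),
    MemLp u 2 (volume.restrict Ω) ∧ MemLp G 2 (volume.restrict Ω) ∧
    (∀ φ : ℂ → ℝ, ContDiff ℝ 1 φ → HasCompactSupport φ → ∀ v : ℂ,
      ∫ x in Ω, (u x - c) * (fderiv ℝ φ x v) = - ∫ x in Ω, @inner ℝ ℂ _ (G x) v * φ x) ∧
    (∀ φ : ℂ → ℝ, ContDiff ℝ 1 φ → HasCompactSupport φ →
      ∫ x in Ω, fderiv ℝ φ x (G x) = lam * ∫ x in Ω, u x * φ x) ∧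
    ¬ (u =ᵐ[volume.restrict Ω] 0)

/-- The boundary curve `t ↦ φ(e^{it})` of `Ω = φ(D)`. -/
noncomputable def curve (φ : ℂ → ℂ) (t : ℝ) : ℂ := φ (Complex.exp (t * Complex.I))

/-- The speed `|φ'(e^{it})|` of the boundary curve; `speed φ t dt` is the length element. -/
noncomputable def speed (φ : ℂ → ℂ) (t : ℝ) : ℝ := ‖deriv φ (Complex.exp (t * Complex.I))‖

/-- The outer unit normal `w φ'(w) / |φ'(w)|`, `w = e^{it}`, at the point `curve φ t`. -/
noncomputable def normal (φ : ℂ → ℂ) (t : ℝ) : ℂ :=
  Complex.exp (t * Complex.I) * deriv φ (Complex.exp (t * Complex.I)) / speed φ t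

/-- The curvature `Re (1 + w φ''(w) / φ'(w)) / |φ'(w)|`, `w = e^{it}`, at the point `curve φ t`. -/
noncomputable def curvature (φ : ℂ → ℂ) (t : ℝ) : ℝ :=
  (1 + Complex.exp (t * Complex.I) * deriv (deriv φ) (Complex.exp (t * Complex.I)) /
    deriv φ (Complex.exp (t * Complex.I))).re / speed φ t

/-- The value at `z` of the infinitesimal rigid motion `z ↦ a + i b z`, `a` complex, `b` real: a
translation if `b = 0`, a rotation about `i a / b` otherwise. -/
noncomputable def motion (a : ℂ) (b : ℝ) (z : ℂ) : ℂ := a + b * Complex.I * z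

/-- The scalar product of the plane. -/
noncomputable def dot (z w : ℂ) : ℝ := (z * (starRingEnd ℂ) w).re

/-- `f` changes sign at least `2 n` times on the circle: there are points
`p 0 < p 1 < ... < p (2 n) = p 0 + 2 π` at which `f` is alternately positive and negative. -/
def SignChanges (n : ℕ) (f : ℝ → ℝ) : Prop :=
  ∃ p : ℕ → ℝ, (∀ i < 2 * n, p i < p (i + 1)) ∧ p (2 * n) = p 0 + 2 * Real.pi ∧
    ∀ i < 2 * n, 0 < (-1) ^ i * f (p i)

/-- Let `φ` be holomorphic and injective in `|w| < r`, where `r > 1`, and let (S) have a nontrivial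
solution on `Ω = φ(D)` for `lam > 0`.
(1) `∫_{∂Ω} (K₀·ν) (K₁·ν) (K₂·ν) ds = 0` for all infinitesimal rigid motions `K₀, K₁, K₂`.
(2) If `Ω` is convex and not a disc, then there is a circle `|z - a| = R` that crosses `∂Ω` at least
six times (`|z - a| - R` changes sign at least six times along `∂Ω`), and the derivative of the
curvature of `∂Ω` changes sign at least six times: `∂Ω` has at least six vertices.
(3) If `Ω` is convex, not a disc, and `φ` is odd (so that `Ω = -Ω`), then the same is true with
eight instead of six and with a circle centred at `0`. -/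
theorem result (φ : ℂ → ℂ) (r : ℝ) (hr : 1 < r) (hφ : DifferentiableOn ℂ φ (ball 0 r))
    (hinj : InjOn φ (ball 0 r)) (lam : ℝ) (hlam : 0 < lam) (hS : Solvable (φ '' ball 0 1) lam) :
    (∀ (a : Fin 3 → ℂ) (b : Fin 3 → ℝ), ∫ t in (0 : ℝ)..2 * Real.pi,
      (∏ i, dot (motion (a i) (b i) (curve φ t)) (normal φ t)) * speed φ t = 0) ∧
    (Convex ℝ (φ '' ball 0 1) → (¬ ∃ (p : ℂ) (r0 : ℝ), 0 < r0 ∧ φ '' ball 0 1 = ball p r0) →
      (∃ (a : ℂ) (R : ℝ), 0 < R ∧ SignChanges 3 (fun t => ‖curve φ t - a‖ - R)) ∧
      SignChanges 3 (deriv (curvature φ))) ∧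
    (Convex ℝ (φ '' ball 0 1) → (∀ w ∈ ball (0 : ℂ) r, φ (-w) = -φ w) →
      (¬ ∃ (p : ℂ) (r0 : ℝ), 0 < r0 ∧ φ '' ball 0 1 = ball p r0) →
      (∃ R : ℝ, 0 < R ∧ SignChanges 4 (fun t => ‖curve φ t‖ - R)) ∧
      SignChanges 4 (deriv (curvature φ))) := by
  obtain ⟨c, u, G, hu, hG, h1, h2, hu0⟩ := hS
  obtain ⟨g1, g2, g3⟩ := Pool.Agent.P8H8.SV.fin_main φ r lam c u G ⟨hr, hφ, hinj⟩ hlam
    ⟨hu, hG, h1, h2⟩ hu0
  refine ⟨fun a b => ?_, g2, g3⟩
  refine (intervalIntegral.integral_congr fun t _ => ?_).trans (g1 a b)
  have hne : speed φ t ≠ 0 := (Pool.Agent.P8H8.SV.speed_pos ⟨hr, hφ, hinj⟩ t).ne'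
  have e : ∀ z : ℂ, dot z (normal φ t) = Pool.Agent.P8H8.SV.ip z (Pool.Agent.P8H8.SV.N φ t) /
      speed φ t := by
    intro z
    unfold dot normal Pool.Agent.P8H8.SV.ip Pool.Agent.P8H8.SV.N
    rw [map_div₀, Complex.conj_ofReal, ← mul_div_assoc, Complex.div_ofReal_re]
  have e2 : ‖Pool.Agent.P8H8.SV.N φ t‖ = speed φ t := Pool.Agent.P8H8.SV.norm_N t
  simp only [e, e2, Fin.prod_univ_three]
  have e3 : ∀ i, motion (a i) (b i) (curve φ t) =
      Pool.Agent.P8H8.SV.kf (a i) (b i) (Pool.Agent.P8H8.SV.γ φ t) := fun i => rfl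
  simp only [e3]
  field_simp

end Pool.Agent.Results.MP_83fd13_an.SixVertices
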