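import Pool.Agent.P8H66.CS.Main

/-!
# Schiffer's conjecture for boundaries given by transcendental functions of the Speiser class

Let `Ω = φ(D)`, where `φ` is holomorphic and injective in a disc `|w| < r`, `r > 1`, and `D` is the
open unit disc: `Ω` is bounded by an analytic Jordan curve. Suppose that (S) has a nontrivial
solution on `Ω` for some `lam > 0`. Let `G = A / B` be a transcendental meromorphic function in the
plane with finitely many singular (critical or asymptotic) values, i.e. `G` is a covering over the
complement of a finite set. Examples are `exp`, `sin`, `tan`, the elliptic functions,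
`∫ exp(polynomial)`, and many compositions of these.

* If on `∂Ω` the function `conj G` satisfies a polynomial equation with coefficients holomorphic in
  a neighbourhood of the closure of `Ω`, with the exception of one point `z0` of `Ω`, which may be
  an essential singularity of the coefficients, then `Ω` is a disc. (If `Ω` is a disc with centre
  `z0`, then there is such an equation of degree one.)
* If there is no exceptional point, then such an equation is impossible: (S) has no nontrivial
  solution for any `lam`. For example, `Ω` can be a component of the preimage `G⁻¹(Ω')` of a domain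
  `Ω'` bounded by an algebraic curve, if `G` is injective near its closure, such as the component
  of `|sin z| < c` at zero for `c < 1`.
* In particular, `∂Ω` does not lie on any curve with a polynomial equation in `exp(α z)` and its
  conjugate, `α ≠ 0`. Examples are the ovals `a cosh x + b cos y = c` and the curves
  `|exp z - 1| = c`.

The proof: `G ∘ φ` is algebroid in `|w| > 1`. At a point `w1` of the circle of convergence of `φ`
where `G ∘ φ` tends to a singular value or to infinity, `φ` is the composition of a logarithm of an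
algebroid function with a holomorphic function `Ψ` in a half-plane which is either periodic, and
then bounded, as `G` is transcendental, or injective; in the second case `Ψ` grows like a power, as
`log (Ψ - b)` is injective and its image contains no large discs (Koebe's theorem). So `φ` grows
more slowly than `1 / |w - w1|` in all cases, and continues analytically to `w1` by
`BranchSingularities`. Hence `φ` is entire, and `Ω` is a disc.
-/

set_option autoImplicit false

open MeasureTheory Metric Set Filter Topology ComplexConjugate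

namespace Pool.Agent.Results.MP_83fd13_an.SpeiserBoundary

/-- The overdetermined problem (S) in the plane `ℂ`: `-Δu = lam u` in `Ω`, `∂u/∂n = 0` on `∂Ω`,
`u = c` on `∂Ω` has a nontrivial weak solution `u` for some real constant `c`; `G` is the weak
gradient of `u`, and both boundary conditions are expressed by testing with functions that need not
vanish on `∂Ω`. -/
def Solvable (Ω : Set ℂ) (lam : ℝ) : Prop :=
  ∃ (c : ℝ) (u : ℂ → ℝ) (G : ℂ → ℂ),
    MemLp u 2 (volume.restrict Ω) ∧ MemLp G 2 (volume.restrict Ω) ∧
    (∀ φ : ℂ → ℝ, ContDiff ℝ 1 φ → HasCompactSupport φ → ∀ v : ℂ,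
      ∫ x in Ω, (u x - c) * (fderiv ℝ φ x v) = - ∫ x in Ω, @inner ℝ ℂ _ (G x) v * φ x) ∧
    (∀ φ : ℂ → ℝ, ContDiff ℝ 1 φ → HasCompactSupport φ →
      ∫ x in Ω, fderiv ℝ φ x (G x) = lam * ∫ x in Ω, u x * φ x) ∧
    ¬ (u =ᵐ[volume.restrict Ω] 0)

/-- `G = A / B` is a transcendental meromorphic function in the plane of the Speiser class: `A` and
`B` are entire without common zeros, `G` is not meromorphic at `∞` (is not a rational function), and
`G` is a covering over the complement of a finite set `E` (its singular values are in `E` or `∞`).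
The value of `A z / B z` at a pole is `0` by convention; `0` belongs to `E`, so only points at which
`G` is finite lie over the complement of `E`. -/
def Speiser (A B : ℂ → ℂ) : Prop :=
  Differentiable ℂ A ∧ Differentiable ℂ B ∧ (∀ z, A z ≠ 0 ∨ B z ≠ 0) ∧
    ¬ MeromorphicAt (fun u : ℂ => A u⁻¹ / B u⁻¹) 0 ∧
    ∃ E : Set ℂ, E.Finite ∧ (0 : ℂ) ∈ E ∧ IsCoveringMapOn (fun z => A z / B z) Eᶜ

/-- Let `φ` be holomorphic and injective in `|w| < r`, where `r > 1`, and let (S) have a nontrivial
solution on `Ω = φ(D)` for `lam > 0`. Let `G = A / B` be a transcendental meromorphic function of the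
Speiser class.
If `∑_{k ≤ N} a_k conj(A)^k conj(B)^(N-k) = 0` on `∂Ω` with `a_k` holomorphic near the closure of `Ω`
with the exception of one point `z0` in `Ω`, and `a_N` not identically zero, then `Ω` is a disc.
This is impossible if the `a_k` are holomorphic near the closure of `Ω` without exception. In
particular, `∂Ω` does not lie on a curve with an equation
`∑_{j, k ≤ d} c_{jk} exp(α z)^j conj(exp(α z))^k = 0`, where `α ≠ 0` and not all `c_{jk}` vanish. -/
theorem result (φ : ℂ → ℂ) (r : ℝ) (hr : 1 < r) (hφ : DifferentiableOn ℂ φ (ball 0 r))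
    (hinj : InjOn φ (ball 0 r)) (lam : ℝ) (hlam : 0 < lam) (hS : Solvable (φ '' ball 0 1) lam) :
    (∀ A B : ℂ → ℂ, Speiser A B → ∀ (V : Set ℂ) (z0 : ℂ) (N : ℕ) (a : ℕ → ℂ → ℂ), IsOpen V →
      φ '' closedBall 0 1 ⊆ V → z0 ∈ φ '' ball 0 1 →
      (∀ k ≤ N, DifferentiableOn ℂ (a k) (V \ {z0})) → (∃ z ∈ φ '' ball 0 1 \ {z0}, a N z ≠ 0) →
      (∀ z ∈ φ '' sphere 0 1, ∑ k ∈ Finset.range (N + 1),
        a k z * conj (A z) ^ k * conj (B z) ^ (N - k) = 0) →
      ∃ (p : ℂ) (r0 : ℝ), 0 < r0 ∧ φ '' ball 0 1 = ball p r0) ∧
    (∀ A B : ℂ → ℂ, Speiser A B → ∀ (V : Set ℂ) (N : ℕ) (a : ℕ → ℂ → ℂ), IsOpen V →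
      φ '' closedBall 0 1 ⊆ V → (∀ k ≤ N, DifferentiableOn ℂ (a k) V) →
      (∃ z ∈ φ '' ball 0 1, a N z ≠ 0) →
      ¬ ∀ z ∈ φ '' sphere 0 1, ∑ k ∈ Finset.range (N + 1),
        a k z * conj (A z) ^ k * conj (B z) ^ (N - k) = 0) ∧
    (∀ (α : ℂ) (d : ℕ) (c : ℕ → ℕ → ℂ), α ≠ 0 → (∃ j ≤ d, ∃ k ≤ d, c j k ≠ 0) →
      ¬ ∀ z ∈ φ '' sphere 0 1, ∑ j ∈ Finset.range (d + 1), ∑ k ∈ Finset.range (d + 1),
        c j k * Complex.exp (α * z) ^ j * conj (Complex.exp (α * z)) ^ k = 0) := by
  refine ⟨?_, ?_, ?_⟩
  · rintro A B ⟨hA, hB, hAB, hTr, E, hE, h0E, hcov⟩ V z0 N a hV hcl hz0 ha hne hrel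
    exact Pool.Agent.P8H66.CS.mainA φ r lam hr hφ hinj hlam hS A B hA hB hAB E hE h0E hcov hTr V hV
      hcl z0 hz0 N a ha hne hrel
  · rintro A B ⟨hA, hB, hAB, hTr, E, hE, h0E, hcov⟩ V N a hV hcl ha hne hrel
    exact Pool.Agent.P8H66.CS.mainB φ r lam hr hφ hinj hlam hS A B hA hB hAB E hE h0E hcov hTr V hV
      hcl N a ha hne hrel
  · intro α d c hα hc hrel
    exact Pool.Agent.P8H66.CS.mainC φ r lam hr hφ hinj hlam hS α hα d c hc hrel

end Pool.Agent.Results.MP_83fd13_an.SpeiserBoundary
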